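import Pool.Agent.U868.DG.Poly

/-!
# Discrete Gaussian chain: polynomial growth of the variance at every temperature
-/

set_option autoImplicit false

namespace Pool.Agent.Results.MP_57c4e5_pr.PolynomialVarianceGrowth

/-- The energy `∑_{x ≠ y} |x - y|^{-α} (φ_x - φ_y)²` (ordered pairs). -/
noncomputable def energy (α : ℝ) (φ : ℤ → ℤ) : ℝ :=
  ∑' p : ℤ × ℤ, (if p.1 = p.2 then (0 : ℝ)
    else ((|p.1 - p.2| : ℤ) : ℝ) ^ (-α) * ((φ p.1 : ℝ) - (φ p.2 : ℝ)) ^ 2)

/-- The configurations `ψ : ℤ → ℤ` that vanish outside `[-N, N]`. -/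
abbrev Conf (N : ℕ) : Type := {φ : ℤ → ℤ // ∀ x : ℤ, (N : ℤ) < |x| → φ x = 0}

/-- The expectation of `f` under the discrete Gaussian chain on `[-N, N]` with zero boundary
condition, i.e. with weights `exp (-β energy)`. -/
noncomputable def expect (α β : ℝ) (N : ℕ) (f : Conf N → ℝ) : ℝ :=
  (∑' φ : Conf N, f φ * Real.exp (-β * energy α φ.1)) /
    (∑' φ : Conf N, Real.exp (-β * energy α φ.1))

/-- The variance of the height `ψ_0` at the origin. -/
noncomputable def variance (α β : ℝ) (N : ℕ) : ℝ :=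
  expect α β N (fun φ => (φ.1 0 : ℝ) ^ 2) - expect α β N (fun φ => (φ.1 0 : ℝ)) ^ 2

/-- The mean height vanishes. -/
theorem expect_height (α β : ℝ) (N : ℕ) : expect α β N (fun φ => (φ.1 0 : ℝ)) = 0 := by
  unfold expect
  let e : Conf N ≃ Conf N :=
    { toFun := fun φ => ⟨-φ.1, fun x hx => by rw [Pi.neg_apply, φ.2 x hx, neg_zero]⟩
      invFun := fun φ => ⟨-φ.1, fun x hx => by rw [Pi.neg_apply, φ.2 x hx, neg_zero]⟩
      left_inv := fun φ => by simp
      right_inv := fun φ => by simp }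
  have hE : ∀ φ : Conf N, energy α (e φ).1 = energy α φ.1 := by
    intro φ
    unfold energy
    refine tsum_congr fun p => ?_
    split_ifs
    · rfl
    · congr 1
      have : (e φ).1 = -φ.1 := rfl
      rw [this]
      simp only [Pi.neg_apply]
      push_cast
      ring
  have h1 := e.tsum_eq (fun φ : Conf N => (φ.1 0 : ℝ) * Real.exp (-β * energy α φ.1))
  have h2 : ∀ φ : Conf N, ((e φ).1 0 : ℝ) * Real.exp (-β * energy α (e φ).1) =
      -((φ.1 0 : ℝ) * Real.exp (-β * energy α φ.1)) := by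
    intro φ
    rw [hE]
    have : (e φ).1 = -φ.1 := rfl
    rw [this]
    simp only [Pi.neg_apply]
    push_cast
    ring
  simp only [h2] at h1
  rw [tsum_neg] at h1
  have h3 : ∑' φ : Conf N, (φ.1 0 : ℝ) * Real.exp (-β * energy α φ.1) = 0 := by linarith
  rw [h3, zero_div]

/-- For every `α ∈ (2,3)` and every `β > 0` the variance of the height at the origin grows at least
like `c N^(α-2)`, the order of the real-valued Gaussian chain. -/
theorem result (α : ℝ) (h2 : 2 < α) (h3 : α < 3) (β : ℝ) (hβ : 0 < β) :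
    ∃ c : ℝ, 0 < c ∧ ∀ N : ℕ, 1 ≤ N → c * (N : ℝ) ^ (α - 2) ≤ variance α β N := by
  set C' : ℝ := β * U868.DG.CC α + 1 with hC'
  have hC'pos : 0 < C' := by
    have := U868.DG.CC_nonneg α h2 h3
    rw [hC']; positivity
  set z := ∑' k : ℤ, Real.exp (-(C' * (k : ℝ) ^ 2)) with hz
  set y := ∑' k : ℤ, (k : ℝ) ^ 2 * Real.exp (-(C' * (k : ℝ) ^ 2)) with hy
  have hz0 : 0 < z := (U868.DG.summable_gauss C' hC'pos).tsum_pos (fun _ => (Real.exp_pos _).le) 0
    (Real.exp_pos _)
  have hy0 : 0 < y := (U868.DG.summable_sq_gauss C' hC'pos).tsum_pos (fun _ => by positivity) 1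
    (by positivity)
  refine ⟨y / z / 4, by positivity, fun N hN => ?_⟩
  have hkey := U868.DG.poly_key α β h2 h3 hβ N hN
  rw [← hC', ← hz, ← hy] at hkey
  have e1 : (∑' φ : Conf N, ((φ.1 0 : ℝ)) ^ 2 * Real.exp (-β * energy α φ.1)) =
      ∑' φ : U868.DG.Om N, (φ.1 0 : ℝ) ^ 2 * Real.exp (-(β * U868.DG.En α (U868.DG.toR φ.1))) := by
    have : ∀ φ : U868.DG.Om N, (φ.1 0 : ℝ) ^ 2 * Real.exp (-(β * U868.DG.En α (U868.DG.toR φ.1))) =
        ((φ.1 0 : ℝ)) ^ 2 * Real.exp (-β * energy α φ.1) := by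
      intro φ
      rw [neg_mul]
      rfl
    simp only [this]
    rfl
  have e2 : (∑' φ : Conf N, Real.exp (-β * energy α φ.1)) =
      ∑' φ : U868.DG.Om N, Real.exp (-(β * U868.DG.En α (U868.DG.toR φ.1))) := by
    have : ∀ φ : U868.DG.Om N, Real.exp (-(β * U868.DG.En α (U868.DG.toR φ.1))) =
        Real.exp (-β * energy α φ.1) := by
      intro φ
      rw [neg_mul]
      rfl
    simp only [this]
    rfl
  unfold variance
  rw [expect_height]
  unfold expect
  rw [e1, e2, zero_pow two_ne_zero, sub_zero]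
  have hZ0 : 0 < ∑' φ : U868.DG.Om N, Real.exp (-(β * U868.DG.En α (U868.DG.toR φ.1))) := by
    have hs : Summable fun φ : U868.DG.Om N =>
        Real.exp (-(β * U868.DG.En α (U868.DG.toR φ.1))) := by
      refine Summable.of_nonneg_of_le (fun _ => (Real.exp_pos _).le) (fun φ => ?_)
        (U868.DG.summable_nrm N (β * (2 * (N : ℝ) + 1) ^ (-α)) (by positivity))
      rw [Real.exp_le_exp, neg_le_neg_iff, mul_assoc]
      apply mul_le_mul_of_nonneg_left _ hβ.le
      exact U868.DG.En_lower α (by linarith) N (U868.DG.toR φ.1) (fun x hx => by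
        simp only [U868.DG.toR]; rw [U868.DG.mem_Om.1 φ.2 x hx, Int.cast_zero])
    exact hs.tsum_pos (fun _ => (Real.exp_pos _).le) 0 (Real.exp_pos _)
  rw [le_div_iff₀ hZ0]
  have e3 : y / z / 4 * (N : ℝ) ^ (α - 2) *
      (∑' φ : U868.DG.Om N, Real.exp (-(β * U868.DG.En α (U868.DG.toR φ.1)))) =
      ((N : ℝ) ^ (α - 2) / 4 * y *
      (∑' φ : U868.DG.Om N, Real.exp (-(β * U868.DG.En α (U868.DG.toR φ.1))))) / z := by
    ring
  rw [e3, div_le_iff₀ hz0]
  exact hkey

end Pool.Agent.Results.MP_57c4e5_pr.PolynomialVarianceGrowth
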